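import Mathlib

set_option autoImplicit false

/-! Module Ari: abstract arithmetic part.  `γ = sInf {log(s/n)/log n : n ≥ 2, Q n s}` (bounded below by `0` since `n ≤ s`; non-empty).
(1) lower bound: `Q n s`, `n ≥ 2`: `γ log n ≤ log(s/n)`, so `n^γ ≤ s/n`.
(2) upper bound: given `ε > 0` choose `m ≥ 2`, `Q m s` with `log(s/m)/log m < γ + ε`, i.e. `s < m^(1+γ+ε)`.  For `n ≥ 1` let `k` be minimal with `n ≤ m^k`, so `m^k ≤ m n`
(`Nat.clog`): `Q (m^k) (s^k)` (induction, `Q 1 1`: from `hmono` and ... use `hone`), `Q n (s^k)`, and `s^k ≤ (m^k)^(1+γ+ε) ≤ (m n)^(1+γ+ε)`; `C = m^(1+γ+ε)`. -/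

open Finset

namespace Pool.Agent.LEX

theorem ari (Q : ℕ → ℕ → Prop) (hmul : ∀ m n s t, Q m s → Q n t → Q (m * n) (s * t))
    (hmono : ∀ m n s, Q n s → m ≤ n → Q m s) (hge : ∀ n s, Q n s → n ≤ s) (hone : Q 1 1) (htwo : ∃ s, Q 2 s) :
    ∃ γ : ℝ, 0 ≤ γ ∧ IsGLB {r : ℝ | ∃ n s : ℕ, 2 ≤ n ∧ Q n s ∧ r = Real.log ((s : ℝ) / n) / Real.log n} γ ∧
      (∀ n s : ℕ, 1 ≤ n → Q n s → (n : ℝ) ^ (1 + γ) ≤ s) ∧
      (∀ ε : ℝ, 0 < ε → ∃ C : ℝ, 0 < C ∧ ∀ n : ℕ, 1 ≤ n → ∃ s : ℕ, Q n s ∧ (s : ℝ) ≤ C * (n : ℝ) ^ (1 + γ + ε)) := by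
  obtain ⟨A, hA⟩ : ∃ A : Set ℝ, A = {r : ℝ | ∃ n s : ℕ, 2 ≤ n ∧ Q n s ∧
    r = Real.log ((s : ℝ) / n) / Real.log n} := ⟨_, rfl⟩
  rw [← hA]
  have hpos : ∀ r ∈ A, 0 ≤ r := by
    rw [hA]
    rintro r ⟨n, s, hn, hq, rfl⟩
    have h1 : (2 : ℝ) ≤ n := by exact_mod_cast hn
    have h2 : (n : ℝ) ≤ s := by exact_mod_cast hge n s hq
    apply div_nonneg
    · apply Real.log_nonneg
      rw [le_div_iff₀ (by linarith)]
      linarith
    · exact Real.log_nonneg (by linarith)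
  have hne : A.Nonempty := by
    obtain ⟨s, hs⟩ := htwo
    rw [hA]
    exact ⟨_, 2, s, le_rfl, hs, rfl⟩
  have hbdd : BddBelow A := ⟨0, hpos⟩
  have hglb := Real.isGLB_sInf hne hbdd
  obtain ⟨γ, hγ⟩ : ∃ γ, γ = sInf A := ⟨_, rfl⟩
  rw [← hγ] at hglb
  have hγ0 : 0 ≤ γ := hglb.2 hpos
  refine ⟨γ, hγ0, hglb, ?_, ?_⟩
  · intro n s hn hq
    have h2 : (n : ℝ) ≤ s := by exact_mod_cast hge n s hq
    rcases Nat.lt_or_ge 1 n with hn1 | hn1
    · have hn0 : (1 : ℝ) < n := by exact_mod_cast hn1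
      have hs0 : (0 : ℝ) < s := by linarith
      have hl : 0 < Real.log n := Real.log_pos hn0
      have h3 : γ ≤ Real.log ((s : ℝ) / n) / Real.log n := by
        apply hglb.1
        rw [hA]
        exact ⟨n, s, hn1, hq, rfl⟩
      rw [le_div_iff₀ hl, Real.log_div hs0.ne' (by linarith)] at h3
      rw [Real.rpow_def_of_pos (by linarith), ← Real.le_log_iff_exp_le hs0]
      linarith
    · have : n = 1 := by omega
      subst this
      rw [Nat.cast_one, Real.one_rpow]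
      simpa using h2
  · intro ε hε
    obtain ⟨r, hr, hrε⟩ : ∃ r ∈ A, r < γ + ε := by
      rw [hγ]
      exact exists_lt_of_csInf_lt hne (by linarith)
    rw [hA] at hr
    obtain ⟨m, s, hm, hq, rfl⟩ := hr
    have hm1 : (1 : ℝ) < m := by exact_mod_cast (by omega : 1 < m)
    have hm0 : (0 : ℝ) < m := by linarith
    have hs1 : (m : ℝ) ≤ s := by exact_mod_cast hge m s hq
    have hs0 : (0 : ℝ) < s := by linarith
    have hl : 0 < Real.log m := Real.log_pos hm1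
    rw [div_lt_iff₀ hl, Real.log_div hs0.ne' hm0.ne'] at hrε
    have hsle : (s : ℝ) ≤ (m : ℝ) ^ (1 + γ + ε) := by
      rw [Real.rpow_def_of_pos hm0, ← Real.log_le_iff_le_exp hs0]
      linarith
    refine ⟨(m : ℝ) ^ (1 + γ + ε), by positivity, fun n hn => ?_⟩
    have hpow : ∀ k : ℕ, Q (m ^ k) (s ^ k) := by
      intro k
      induction k with
      | zero => simpa using hone
      | succ k ih => rw [pow_succ, pow_succ]; exact hmul _ _ _ _ ih hq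
    obtain ⟨k, hk1, hk2⟩ : ∃ k : ℕ, n ≤ m ^ k ∧ m ^ k ≤ m * n := by
      refine ⟨Nat.clog m n, Nat.le_pow_clog (by omega) n, ?_⟩
      rcases Nat.lt_or_ge 1 n with hn1 | hn1
      · have h1 := Nat.pow_pred_clog_lt_self (b := m) (by omega) hn1
        have h2 : 0 < Nat.clog m n := Nat.clog_pos (by omega) hn1
        obtain ⟨j, hj⟩ := Nat.exists_eq_succ_of_ne_zero h2.ne'
        rw [hj] at h1 ⊢
        rw [Nat.pred_succ] at h1
        rw [Nat.succ_eq_add_one, pow_succ, mul_comm]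
        exact Nat.mul_le_mul_left _ h1.le
      · have : n = 1 := by omega
        subst this
        rw [Nat.clog_one_right, pow_zero]
        omega
    refine ⟨s ^ k, hmono _ _ _ (hpow k) hk1, ?_⟩
    have he : 0 ≤ 1 + γ + ε := by linarith
    calc ((s ^ k : ℕ) : ℝ) = (s : ℝ) ^ k := by push_cast; ring
      _ ≤ ((m : ℝ) ^ (1 + γ + ε)) ^ k := pow_le_pow_left₀ hs0.le hsle k
      _ = ((m : ℝ) ^ k) ^ (1 + γ + ε) := by
          rw [← Real.rpow_natCast, ← Real.rpow_mul hm0.le, ← Real.rpow_natCast, ← Real.rpow_mul hm0.le,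
            mul_comm]
      _ ≤ ((m : ℝ) * n) ^ (1 + γ + ε) := by
          apply Real.rpow_le_rpow (by positivity) _ he
          exact_mod_cast hk2
      _ = (m : ℝ) ^ (1 + γ + ε) * (n : ℝ) ^ (1 + γ + ε) := Real.mul_rpow hm0.le (by positivity)

end Pool.Agent.LEX
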