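import Pool.Agent.LEX.Fg

set_option autoImplicit false

/-! Module Col.  `|A| ≤ 2`: `B = A` (three points are never in `A`).  `3 ≤ |A| ≤ 4`: `B` = two points of `A` (`2·4 ≤ 3·2 + 2`).
`|A| ≥ 5`: let `B ⊆ A` have maximal cardinality among the subsets without three collinear points.  Every `a ∈ A \ B` has different `b, b' ∈ B` with
`{a, b, b'}` collinear (else `B ∪ {a}` is larger; the collinear triple of `B ∪ {a}` contains `a`).  For different `a₁, a₂ ∈ A \ B` the pairs `{b₁,b₁'}`,
`{b₂,b₂'}` are disjoint: if they share exactly one point `b`, the two lines through `b` span a plane which contains the five different points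
`a₁, a₂, b, b₁', b₂'` (or the two lines coincide: still coplanar); if the pairs are equal then `a₁, a₂, b, b'` are on one line and with any fifth point of `A` coplanar.
Both contradict `fg_iff`.  So `2 |A \ B| ≤ |B|`, `2|A| ≤ 3|B|`. -/

open Finset Matrix

namespace Pool.Agent.LEX

private theorem Col_five {a₁ a₂ b c d : Fin 3 → ℝ}
    (h1 : a₁ ∈ affineSpan ℝ ({b, c, d} : Set (Fin 3 → ℝ)))
    (h2 : a₂ ∈ affineSpan ℝ ({b, c, d} : Set (Fin 3 → ℝ))) :
    Coplanar ℝ ({a₁, a₂, b, c, d} : Set (Fin 3 → ℝ)) := by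
  have h3 : a₁ ∈ affineSpan ℝ ({a₂, b, c, d} : Set (Fin 3 → ℝ)) :=
    affineSpan_mono ℝ (Set.subset_insert _ _) h1
  rw [coplanar_insert_iff_of_mem_affineSpan h3, coplanar_insert_iff_of_mem_affineSpan h2]
  exact coplanar_triple ℝ b c d

private theorem Col_line {a b c : Fin 3 → ℝ} (h : Collinear ℝ ({a, b, c} : Set (Fin 3 → ℝ)))
    (hbc : b ≠ c) : a ∈ affineSpan ℝ ({b, c} : Set (Fin 3 → ℝ)) :=
  h.mem_affineSpan_of_mem_of_ne (by simp) (by simp) (by simp) hbc

/-- the contradiction -/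
private theorem Col_contra {A B : Finset (Fin 3 → ℝ)} (hA : FiveGeneric A) (h5 : 5 ≤ A.card)
    (hBA : B ⊆ A) {a₁ a₂ b c c' : Fin 3 → ℝ} (ha1 : a₁ ∈ A) (ha2 : a₂ ∈ A) (hb1 : a₁ ∉ B)
    (hb2 : a₂ ∉ B) (hne : a₁ ≠ a₂) (hb : b ∈ B) (hc : c ∈ B) (hc' : c' ∈ B) (hbc : b ≠ c)
    (hbc' : b ≠ c') (h1 : Collinear ℝ ({a₁, b, c} : Set (Fin 3 → ℝ)))
    (h2 : Collinear ℝ ({a₂, b, c'} : Set (Fin 3 → ℝ))) : False := by
  classical
  have l1 := Col_line h1 hbc
  have l2 := Col_line h2 hbc'
  have n1b : a₁ ≠ b := fun h => hb1 (h ▸ hb)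
  have n1c : a₁ ≠ c := fun h => hb1 (h ▸ hc)
  have n2b : a₂ ≠ b := fun h => hb2 (h ▸ hb)
  have n2c : a₂ ≠ c := fun h => hb2 (h ▸ hc)
  have fin : ∀ d, d ∈ A → d ≠ a₁ → d ≠ a₂ → d ≠ b → d ≠ c →
      a₂ ∈ affineSpan ℝ ({b, c, d} : Set (Fin 3 → ℝ)) → False := by
    intro d hd n1 n2 n3 n4 hm
    have m1 : a₁ ∈ affineSpan ℝ ({b, c, d} : Set (Fin 3 → ℝ)) :=
      affineSpan_mono ℝ (by
        intro x hx
        simp only [Set.mem_insert_iff, Set.mem_singleton_iff] at hx ⊢
        tauto) l1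
    have hcop := Col_five m1 hm
    refine (fg_iff A).1 hA ({a₁, a₂, b, c, d} : Finset (Fin 3 → ℝ)) ?_ ?_ ?_
    · intro x hx
      simp only [Finset.mem_insert, Finset.mem_singleton] at hx
      rcases hx with rfl | rfl | rfl | rfl | rfl
      · exact ha1
      · exact ha2
      · exact hBA hb
      · exact hBA hc
      · exact hd
    · rw [Finset.card_insert_of_notMem, Finset.card_insert_of_notMem, Finset.card_insert_of_notMem,
        Finset.card_insert_of_notMem, Finset.card_singleton]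
      · simp only [Finset.mem_singleton]
        exact fun h => n4 h.symm
      · simp only [Finset.mem_insert, Finset.mem_singleton]
        rintro (h | h)
        · exact hbc h
        · exact n3 h.symm
      · simp only [Finset.mem_insert, Finset.mem_singleton]
        rintro (h | h | h)
        · exact n2b h
        · exact n2c h
        · exact n2 h.symm
      · simp only [Finset.mem_insert, Finset.mem_singleton]
        rintro (h | h | h | h)
        · exact hne h
        · exact n1b h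
        · exact n1c h
        · exact n1 h.symm
    · simpa using hcop
  by_cases hcc : c = c'
  · subst hcc
    obtain ⟨d, hd, hd'⟩ : ∃ d ∈ A, d ∉ ({a₁, a₂, b, c} : Finset (Fin 3 → ℝ)) := by
      by_contra hcon
      push Not at hcon
      have h6 := Finset.card_le_card (show A ⊆ ({a₁, a₂, b, c} : Finset (Fin 3 → ℝ)) from hcon)
      have h7 : ({a₁, a₂, b, c} : Finset (Fin 3 → ℝ)).card ≤ 4 := Finset.card_le_four
      omega
    simp only [Finset.mem_insert, Finset.mem_singleton, not_or] at hd'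
    refine fin d hd hd'.1 hd'.2.1 hd'.2.2.1 hd'.2.2.2 ?_
    exact affineSpan_mono ℝ (by
        intro x hx
        simp only [Set.mem_insert_iff, Set.mem_singleton_iff] at hx ⊢
        tauto) l2
  · refine fin c' (hBA hc') (fun h => hb1 (h ▸ hc')) (fun h => hb2 (h ▸ hc')) (Ne.symm hbc')
      (Ne.symm hcc) ?_
    exact affineSpan_mono ℝ (by
        intro x hx
        simp only [Set.mem_insert_iff, Set.mem_singleton_iff] at hx ⊢
        tauto) l2

theorem col (A : Finset (Fin 3 → ℝ)) (hA : FiveGeneric A) : ∃ B : Finset (Fin 3 → ℝ), B ⊆ A ∧ Lp B ∧ 2 * A.card ≤ 3 * B.card + 2 := by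
  classical
  set F : Finset (Finset (Fin 3 → ℝ)) := A.powerset.filter (fun B => ∀ T : Finset (Fin 3 → ℝ),
    T ⊆ B → T.card = 3 → ¬ Collinear ℝ (T : Set (Fin 3 → ℝ))) with hF
  have hsmall : ∀ B ⊆ A, B.card ≤ 2 → B ∈ F := by
    intro B hB hc
    rw [hF, Finset.mem_filter, Finset.mem_powerset]
    refine ⟨hB, fun T hT h3 _ => ?_⟩
    have := Finset.card_le_card hT
    omega
  obtain ⟨B, hB, hmax⟩ := Finset.exists_max_image F Finset.card ⟨∅, hsmall ∅ (by simp) (by simp)⟩
  have hB' := hB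
  rw [hF, Finset.mem_filter, Finset.mem_powerset] at hB'
  obtain ⟨hBA, hB3⟩ := hB'
  refine ⟨B, hBA, ⟨hB3, fun T hT h5 => (fg_iff A).1 hA T (hT.trans hBA) h5⟩, ?_⟩
  have hmin : min 2 A.card ≤ B.card := by
    obtain ⟨T, hT, hc⟩ := Finset.exists_subset_card_eq (min_le_right 2 A.card)
    rw [← hc]
    exact hmax T (hsmall T hT (by omega))
  rcases Nat.lt_or_ge A.card 5 with h5 | h5
  · omega
  have key : ∀ a ∈ A \ B, ∃ b c : Fin 3 → ℝ, b ∈ B ∧ c ∈ B ∧ b ≠ c ∧
      Collinear ℝ ({a, b, c} : Set (Fin 3 → ℝ)) := by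
    intro a ha
    obtain ⟨ha1, ha2⟩ := Finset.mem_sdiff.1 ha
    have hnot : insert a B ∉ F := by
      intro h
      have := hmax _ h
      rw [Finset.card_insert_of_notMem ha2] at this
      omega
    rw [hF, Finset.mem_filter, Finset.mem_powerset] at hnot
    push Not at hnot
    obtain ⟨T, hT, h3, hcol⟩ := hnot (Finset.insert_subset ha1 hBA)
    have haT : a ∈ T := by
      by_contra hn
      refine hB3 T ?_ h3 hcol
      intro x hx
      rcases Finset.mem_insert.1 (hT hx) with rfl | h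
      · exact absurd hx hn
      · exact h
    have h2 : (T.erase a).card = 2 := by
      rw [Finset.card_erase_of_mem haT]
      omega
    obtain ⟨b, c, hbc, hTe⟩ := Finset.card_eq_two.1 h2
    have hmem : ∀ x ∈ T.erase a, x ∈ B := by
      intro x hx
      obtain ⟨n1, n2⟩ := Finset.mem_erase.1 hx
      rcases Finset.mem_insert.1 (hT n2) with h | h
      · exact absurd h n1
      · exact h
    refine ⟨b, c, hmem b (by rw [hTe]; simp), hmem c (by rw [hTe]; simp), hbc, ?_⟩
    have hTeq : T = insert a {b, c} := by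
      rw [← hTe, Finset.insert_erase haT]
    rw [hTeq] at hcol
    simpa using hcol
  choose! f g hf hg hfg hcol using key
  have hdisj : ((A \ B : Finset (Fin 3 → ℝ)) : Set (Fin 3 → ℝ)).PairwiseDisjoint
      (fun a => ({f a, g a} : Finset (Fin 3 → ℝ))) := by
    intro a₁ ha1 a₂ ha2 hne
    have m1 := Finset.mem_sdiff.1 (Finset.mem_coe.1 ha1)
    have m2 := Finset.mem_sdiff.1 (Finset.mem_coe.1 ha2)
    have k1 := Finset.mem_coe.1 ha1
    have k2 := Finset.mem_coe.1 ha2
    have sw : ∀ a, a ∈ A \ B → Collinear ℝ ({a, g a, f a} : Set (Fin 3 → ℝ)) := by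
      intro a ha
      have := hcol a ha
      rwa [Set.pair_comm (f a) (g a)] at this
    rw [Function.onFun, Finset.disjoint_left]
    intro x hx1 hx2
    simp only [Finset.mem_insert, Finset.mem_singleton] at hx1 hx2
    rcases hx1 with rfl | rfl
    · rcases hx2 with h | h
      · refine Col_contra hA h5 hBA m1.1 m2.1 m1.2 m2.2 hne (hf _ k1) (hg _ k1) (hg _ k2)
          (hfg _ k1) ?_ (hcol _ k1) ?_
        · rw [h]; exact hfg _ k2
        · rw [h]; exact hcol _ k2
      · refine Col_contra hA h5 hBA m1.1 m2.1 m1.2 m2.2 hne (hf _ k1) (hg _ k1) (hf _ k2)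
          (hfg _ k1) ?_ (hcol _ k1) ?_
        · rw [h]; exact (hfg _ k2).symm
        · rw [h]; exact sw _ k2
    · rcases hx2 with h | h
      · refine Col_contra hA h5 hBA m1.1 m2.1 m1.2 m2.2 hne (hg _ k1) (hf _ k1) (hg _ k2)
          (hfg _ k1).symm ?_ (sw _ k1) ?_
        · rw [h]; exact hfg _ k2
        · rw [h]; exact hcol _ k2
      · refine Col_contra hA h5 hBA m1.1 m2.1 m1.2 m2.2 hne (hg _ k1) (hf _ k1) (hf _ k2)
          (hfg _ k1).symm ?_ (sw _ k1) ?_
        · rw [h]; exact (hfg _ k2).symm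
        · rw [h]; exact sw _ k2
  have hcard : ∑ a ∈ A \ B, ({f a, g a} : Finset (Fin 3 → ℝ)).card ≤ B.card := by
    rw [← Finset.card_biUnion hdisj]
    refine Finset.card_le_card ?_
    intro x hx
    obtain ⟨a, ha, hxa⟩ := Finset.mem_biUnion.1 hx
    simp only [Finset.mem_insert, Finset.mem_singleton] at hxa
    rcases hxa with rfl | rfl
    · exact hf a ha
    · exact hg a ha
  have hsum : ∑ a ∈ A \ B, ({f a, g a} : Finset (Fin 3 → ℝ)).card = 2 * (A \ B).card := by
    rw [Finset.sum_congr rfl fun a ha => Finset.card_pair (hfg a ha), Finset.sum_const,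
      smul_eq_mul, mul_comm]
  rw [hsum, Finset.card_sdiff_of_subset hBA] at hcard
  have := Finset.card_le_card hBA
  omega

end Pool.Agent.LEX
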