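import Mathlib

set_option autoImplicit false

/-! MP_4fa8e2_co, second theorem: the exponent `γ = lim log g(n)/log n` exists, `g(n) ≥ n^γ/4`, and `γ` is the infimum of
`log(|A+A|/|A|)/log|A|` over the finite sets `A` (at least two points) without three collinear and without five coplanar points. -/

open Finset Matrix
open scoped Pointwise

namespace Pool.Agent.LEX

/-- 5-generic sets (as in the problem) -/
def FiveGeneric (A : Finset (Fin 3 → ℝ)) : Prop :=
  ∀ (a : Fin 3 → ℝ) (c : ℝ), a ≠ 0 → {x : Fin 3 → ℝ | x ∈ A ∧ a ⬝ᵥ x = c}.ncard ≤ 4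

/-- no three points collinear, no five points coplanar -/
def Lp {V : Type} [AddCommGroup V] [Module ℝ V] (A : Finset V) : Prop :=
  (∀ T : Finset V, T ⊆ A → T.card = 3 → ¬ Collinear ℝ (T : Set V)) ∧
    (∀ T : Finset V, T ⊆ A → T.card = 5 → ¬ Coplanar ℝ (T : Set V))

/-- size of the sumset -/
noncomputable def ss {V : Type} [AddCommGroup V] (A : Finset V) : ℕ := ((A : Set V) + (A : Set V)).ncard

/-- `P n s`: there is a set of size `n` with property `Lp` in `ℝ³` and at most `s` sums -/
def P (n s : ℕ) : Prop := ∃ A : Finset (Fin 3 → ℝ), A.card = n ∧ Lp A ∧ ss A ≤ s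

end Pool.Agent.LEX
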