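import Pool.Agent.LEX.Defs

set_option autoImplicit false

/-! Module Fg.  (→) If `T ⊆ A`, `|T| = 5`, is coplanar: `W = vectorSpan ℝ T` has dimension `≤ 2 < 3`, so there is `a ≠ 0` with `a ⬝ᵥ w = 0` for `w ∈ W`
(a nonzero linear functional on `Fin 3 → ℝ` vanishing on `W`, written as `a ⬝ᵥ`); all points of `T` have the same value `a ⬝ᵥ x`, so five points in the
plane.  (←) If five points of `A` satisfy `a ⬝ᵥ x = c`, choose `T` of size 5 in that set: `vectorSpan ℝ T ≤ ker (a ⬝ᵥ ·)` which has `finrank 2`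
(`a ≠ 0`), so `T` is coplanar (`coplanar_iff_finrank_le_two` or `Coplanar` by definition `Module.rank ≤ 2`). -/

open Finset Matrix

namespace Pool.Agent.LEX

private theorem Fg_dot (f : (Fin 3 → ℝ) →ₗ[ℝ] ℝ) (x : Fin 3 → ℝ) :
    f x = (fun i => f (Pi.single i 1)) ⬝ᵥ x := by
  rw [LinearMap.pi_apply_eq_sum_univ f x]
  unfold dotProduct
  refine Finset.sum_congr rfl fun i _ => ?_
  rw [smul_eq_mul, mul_comm]
  congr 2
  funext j
  rw [Pi.single_apply]
  simp only [eq_comm]

theorem fg_iff (A : Finset (Fin 3 → ℝ)) :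
    FiveGeneric A ↔ ∀ T : Finset (Fin 3 → ℝ), T ⊆ A → T.card = 5 → ¬ Coplanar ℝ (T : Set (Fin 3 → ℝ)) := by
  classical
  constructor
  · intro h T hT hc hcop
    have hfin := coplanar_iff_finrank_le_two.1 hcop
    have hlt : vectorSpan ℝ (T : Set (Fin 3 → ℝ)) < ⊤ := by
      rw [lt_top_iff_ne_top]
      intro htop
      rw [htop, finrank_top, Module.finrank_fin_fun] at hfin
      omega
    obtain ⟨f, hf, hle⟩ := Submodule.exists_le_ker_of_lt_top _ hlt
    obtain ⟨p, hp⟩ : T.Nonempty := by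
      rw [← Finset.card_pos]
      omega
    have ha : (fun i => f (Pi.single i 1)) ≠ 0 := by
      intro h0
      apply hf
      ext i
      have := congrFun h0 i
      simpa using this
    have hsub : (T : Set (Fin 3 → ℝ)) ⊆
        {x : Fin 3 → ℝ | x ∈ A ∧ (fun i => f (Pi.single i 1)) ⬝ᵥ x = f p} := by
      intro x hx
      refine ⟨hT hx, ?_⟩
      rw [← Fg_dot]
      have h1 : x -ᵥ p ∈ vectorSpan ℝ (T : Set (Fin 3 → ℝ)) :=
        vsub_mem_vectorSpan ℝ hx (by exact_mod_cast hp)
      have h2 := hle h1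
      rw [LinearMap.mem_ker, vsub_eq_sub, map_sub, sub_eq_zero] at h2
      exact h2
    have hfinite : {x : Fin 3 → ℝ | x ∈ A ∧ (fun i => f (Pi.single i 1)) ⬝ᵥ x = f p}.Finite :=
      A.finite_toSet.subset fun x hx => hx.1
    have h3 := Set.ncard_le_ncard hsub hfinite
    rw [Set.ncard_coe_finset, hc] at h3
    have h4 := h _ (f p) ha
    omega
  · intro h a c ha
    by_contra hcon
    push Not at hcon
    have e1 : {x : Fin 3 → ℝ | x ∈ A ∧ a ⬝ᵥ x = c} = ((A.filter fun x => a ⬝ᵥ x = c : Finset (Fin 3 → ℝ)) :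
        Set (Fin 3 → ℝ)) := by
      ext x
      simp
    rw [e1, Set.ncard_coe_finset] at hcon
    obtain ⟨T, hT, hc⟩ := Finset.exists_subset_card_eq (show 5 ≤ _ from hcon)
    refine h T (hT.trans (Finset.filter_subset _ _)) hc ?_
    rw [coplanar_iff_finrank_le_two]
    set f : (Fin 3 → ℝ) →ₗ[ℝ] ℝ :=
      { toFun := fun x => a ⬝ᵥ x
        map_add' := fun x y => dotProduct_add a x y
        map_smul' := fun r x => by simp [dotProduct_smul] } with hf
    have hne : f ≠ 0 := by
      intro h0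
      apply ha
      funext i
      have h1 : f (Pi.single i 1) = 0 := by
        rw [h0]
        rfl
      simpa [hf] using h1
    have hker : LinearMap.ker f ≠ ⊤ := by
      intro h0
      exact hne (LinearMap.ker_eq_top.1 h0)
    have hle : vectorSpan ℝ (T : Set (Fin 3 → ℝ)) ≤ LinearMap.ker f := by
      unfold vectorSpan
      rw [Submodule.span_le]
      rintro _ ⟨x, hx, y, hy, rfl⟩
      have hx' := (Finset.mem_filter.1 (hT hx)).2
      have hy' := (Finset.mem_filter.1 (hT hy)).2
      show f (x -ᵥ y) = 0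
      rw [vsub_eq_sub, map_sub]
      show a ⬝ᵥ x - a ⬝ᵥ y = 0
      rw [hx', hy', sub_self]
    have h5 := Submodule.finrank_mono hle
    have h6 := Submodule.finrank_lt hker
    rw [Module.finrank_fin_fun] at h6
    omega

end Pool.Agent.LEX
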