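import Pool.Agent.LEX.GenP

set_option autoImplicit false

/-! Module Gen: `genP` for a finite family of triples.  Hypothesis `3 ≤ finrank V`.
(1) different `x, y ∈ A`: `x - y ≠ 0` extends to an independent triple; so `f x ≠ f y`.
(2) `T ⊆ A`, `|T| = 3`, `T = {x,y,z}` not collinear: `y - x, z - x` are independent, extend to an independent triple (needs `3 ≤ finrank V`); so `f y - f x`, `f z - f x` are independent and
`f(T)` is not collinear.
(3) `T ⊆ A`, `|T| = 5`, not coplanar: `vectorSpan ℝ T` has rank `≥ 3`, so there is an independent triple `u` of elements of `vectorSpan ℝ T`; `f(u)` is independent and lies in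
`vectorSpan ℝ (f '' T)`, so `f(T)` is not coplanar.
Every `T' ⊆ A.image f` with 3 or 5 elements is `T.image f` for a `T ⊆ A` with the same number of elements. -/

open Finset

namespace Pool.Agent.LEX

private theorem Gen_ext {V : Type} [AddCommGroup V] [Module ℝ V] [FiniteDimensional ℝ V]
    (hV : 3 ≤ Module.finrank ℝ V) : ∀ k n : ℕ, n + k = 3 → ∀ v : Fin n → V, LinearIndependent ℝ v →
    ∃ u : Fin 3 → V, LinearIndependent ℝ u ∧ ∀ (i : ℕ) (h3 : i < 3) (h : i < n),
      u ⟨i, h3⟩ = v ⟨i, h⟩ := by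
  intro k
  induction k with
  | zero =>
    intro n hn v hv
    obtain rfl : n = 3 := by omega
    exact ⟨v, hv, fun i h3 h => rfl⟩
  | succ k ih =>
    intro n hn v hv
    obtain ⟨x, hx⟩ := exists_linearIndependent_snoc_of_lt_finrank hv (by omega)
    obtain ⟨u, hu, hu2⟩ := ih (n + 1) (by omega) _ hx
    refine ⟨u, hu, fun i h3 h => ?_⟩
    rw [hu2 i h3 (by omega)]
    have : (⟨i, by omega⟩ : Fin (n + 1)) = Fin.castSucc ⟨i, h⟩ := rfl
    rw [this, Fin.snoc_castSucc]

private theorem Gen_sub {V : Type} [AddCommGroup V] [Module ℝ V] [FiniteDimensional ℝ V]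
    (hV : 3 ≤ Module.finrank ℝ V) (W : Submodule ℝ V) :
    ∃ u : Fin 3 → V, LinearIndependent ℝ u ∧ ∀ i : Fin 3, (i : ℕ) < Module.finrank ℝ W →
      u i ∈ W := by
  obtain ⟨d, hd⟩ : ∃ d, d = min 3 (Module.finrank ℝ W) := ⟨_, rfl⟩
  have hd1 : d ≤ Module.finrank ℝ W := hd ▸ min_le_right _ _
  have hd3 : d ≤ 3 := hd ▸ min_le_left _ _
  let b := Module.finBasis ℝ W
  have hb : LinearIndependent ℝ (fun i : Fin d => ((b (Fin.castLE hd1 i) : W) : V)) := by
    have h1 := (b.linearIndependent.map' W.subtype (Submodule.ker_subtype W)).comp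
      (Fin.castLE hd1) (Fin.castLE_injective hd1)
    exact h1
  obtain ⟨u, hu, hu2⟩ := Gen_ext hV (3 - d) d (by omega) _ hb
  refine ⟨u, hu, fun i hi => ?_⟩
  have hid : (i : ℕ) < d := by
    rw [hd]
    exact lt_min i.2 hi
  have := hu2 i i.2 hid
  rw [show (⟨(i : ℕ), i.2⟩ : Fin 3) = i from rfl] at this
  rw [this]
  exact (b _).2

private theorem Gen_span {V : Type} [AddCommGroup V] [Module ℝ V] [FiniteDimensional ℝ V]
    (f : V →ₗ[ℝ] (Fin 3 → ℝ)) (T : Set V) (u : Fin 3 → V)
    (hu : ∀ i : Fin 3, (i : ℕ) < Module.finrank ℝ (vectorSpan ℝ T) → u i ∈ vectorSpan ℝ T)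
    (hf : LinearIndependent ℝ (fun i => f (u i))) :
    min 3 (Module.finrank ℝ (vectorSpan ℝ T)) ≤
      Module.finrank ℝ (vectorSpan ℝ (f '' T)) := by
  have hmap : vectorSpan ℝ (f '' T) = (vectorSpan ℝ T).map f := by
    have := AffineMap.map_vectorSpan (k := ℝ) f.toAffineMap (s := T)
    simpa using this.symm
  obtain ⟨d, hd⟩ : ∃ d, d = min 3 (Module.finrank ℝ (vectorSpan ℝ T)) := ⟨_, rfl⟩
  have hd3 : d ≤ 3 := hd ▸ min_le_left _ _
  have hd1 : d ≤ Module.finrank ℝ (vectorSpan ℝ T) := hd ▸ min_le_right _ _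
  rw [← hd, hmap]
  have hmem : ∀ i : Fin d, f (u (Fin.castLE hd3 i)) ∈ (vectorSpan ℝ T).map f := fun i =>
    Submodule.mem_map_of_mem (hu _ (lt_of_lt_of_le i.2 hd1))
  have hli : LinearIndependent ℝ (fun i : Fin d => (⟨_, hmem i⟩ : (vectorSpan ℝ T).map f)) := by
    have h1 := hf.comp (Fin.castLE hd3) (Fin.castLE_injective hd3)
    refine LinearIndependent.of_comp ((vectorSpan ℝ T).map f).subtype ?_
    exact h1
  have := hli.fintype_card_le_finrank
  rwa [Fintype.card_fin] at this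

theorem gen {V : Type} [AddCommGroup V] [Module ℝ V] [FiniteDimensional ℝ V] (hV : 3 ≤ Module.finrank ℝ V) (A : Finset V) (hA : Lp A) :
    open Classical in ∃ f : V →ₗ[ℝ] (Fin 3 → ℝ), Set.InjOn f (A : Set V) ∧ Lp (A.image f) := by
  classical
  choose u hu1 hu2 using fun T : Finset V => Gen_sub hV (vectorSpan ℝ (T : Set V))
  obtain ⟨f, hf⟩ := genP (A.powerset.image u) (by
    intro w hw
    obtain ⟨T, -, rfl⟩ := Finset.mem_image.1 hw
    exact hu1 T)
  have key : ∀ T : Finset V, T ⊆ A → min 3 (Module.finrank ℝ (vectorSpan ℝ (T : Set V))) ≤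
      Module.finrank ℝ (vectorSpan ℝ (f '' (T : Set V))) := by
    intro T hT
    exact Gen_span f _ (u T) (hu2 T) (hf _ (Finset.mem_image_of_mem u (Finset.mem_powerset.2 hT)))
  have hinj : Set.InjOn f (A : Set V) := by
    intro x hx y hy hxy
    by_contra hne
    have h1 := key {x, y} (by
      intro z hz
      rw [Finset.mem_insert, Finset.mem_singleton] at hz
      rcases hz with rfl | rfl
      · exact hx
      · exact hy)
    have h2 : vectorSpan ℝ (f '' (({x, y} : Finset V) : Set V)) = ⊥ := by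
      rw [vectorSpan_eq_bot_iff_subsingleton]
      rintro _ ⟨a, ha, rfl⟩ _ ⟨b, hb, rfl⟩
      rw [Finset.coe_pair, Set.mem_insert_iff, Set.mem_singleton_iff] at ha hb
      rcases ha with rfl | rfl <;> rcases hb with rfl | rfl <;> simp [hxy]
    rw [h2, finrank_bot] at h1
    have h3 : Module.finrank ℝ (vectorSpan ℝ (({x, y} : Finset V) : Set V)) = 0 := by omega
    rw [Submodule.finrank_eq_zero, vectorSpan_eq_bot_iff_subsingleton] at h3
    exact hne (h3 (by simp) (by simp))
  have hpull : ∀ T' : Finset (Fin 3 → ℝ), T' ⊆ A.image f → ∃ T : Finset V, T ⊆ A ∧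
      T.card = T'.card ∧ f '' (T : Set V) = (T' : Set (Fin 3 → ℝ)) := by
    intro T' hT'
    obtain ⟨T, hT, hTT'⟩ : ∃ T ⊆ A, T.image f = T' := by
      refine ⟨A.filter (fun a => f a ∈ T'), Finset.filter_subset _ _, ?_⟩
      ext y
      rw [Finset.mem_image]
      constructor
      · rintro ⟨a, ha, rfl⟩
        exact (Finset.mem_filter.1 ha).2
      · intro hy
        obtain ⟨a, ha, rfl⟩ := Finset.mem_image.1 (hT' hy)
        exact ⟨a, Finset.mem_filter.2 ⟨ha, hy⟩, rfl⟩
    refine ⟨T, hT, ?_, ?_⟩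
    · rw [← hTT', Finset.card_image_of_injOn (hinj.mono (Finset.coe_subset.2 hT))]
    · rw [← hTT', Finset.coe_image]
  refine ⟨f, hinj, ?_, ?_⟩
  · intro T' hT' hc hcol
    obtain ⟨T, hT, hTc, hfT⟩ := hpull T' hT'
    have h1 := key T hT
    rw [hfT] at h1
    have h2 := collinear_iff_finrank_le_one.1 hcol
    exact hA.1 T hT (hTc.trans hc) (collinear_iff_finrank_le_one.2 (by omega))
  · intro T' hT' hc hcop
    obtain ⟨T, hT, hTc, hfT⟩ := hpull T' hT'
    have h1 := key T hT
    rw [hfT] at h1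
    have h2 := coplanar_iff_finrank_le_two.1 hcop
    exact hA.2 T hT (hTc.trans hc) (coplanar_iff_finrank_le_two.2 (by omega))

end Pool.Agent.LEX
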