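import Pool.Agent.LEX.ProdL
import Pool.Agent.LEX.Gen

set_option autoImplicit false

/-! Module MulP.  `P_mul`: `A ×ˢ B ⊂ ℝ³ × ℝ³` (`prodL`), `C = f(A ×ˢ B)` (`gen`, `finrank = 6`); `C + C = f((A+A) × (B+B))`, so `ss C ≤ ss A · ss B` (`Set.ncard_image_le`, `Set.ncard_prod`).
`P_mono`: a subset of size `m` (`Finset.exists_subset_card_eq`).  `P_two`: two different points, `ss ≤ 3`.  `P_ge`: `ss A ≥ |A|` for `A ≠ ∅` (translate by one element); even `n ≤ s` for `n = 0`.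
`P_fin`: for every `n` there is an `s` with `P n s`: from `P_two`, `P_mul`, `P_mono` (`2^k ≥ n`). -/

open Finset
open scoped Pointwise

namespace Pool.Agent.LEX

private theorem MulP_lp_mono {V : Type} [AddCommGroup V] [Module ℝ V] {A B : Finset V} (h : B ⊆ A) (hA : Lp A) : Lp B :=
  ⟨fun T hT hc => hA.1 T (hT.trans h) hc, fun T hT hc => hA.2 T (hT.trans h) hc⟩

private theorem MulP_ss_fin {V : Type} [AddCommGroup V] (A : Finset V) : ((A : Set V) + (A : Set V)).Finite :=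
  Set.Finite.add A.finite_toSet A.finite_toSet

theorem P_mul {m n s t : ℕ} (h : P m s) (h' : P n t) : P (m * n) (s * t) := by
  classical
  obtain ⟨A, hAc, hAL, hAs⟩ := h
  obtain ⟨B, hBc, hBL, hBs⟩ := h'
  have hL := prodL A B hAL hBL
  obtain ⟨f, hf, hfL⟩ := gen (V := (Fin 3 → ℝ) × (Fin 3 → ℝ)) (by simp [Module.finrank_prod]) (A ×ˢ B) hL
  refine ⟨(A ×ˢ B).image f, ?_, ?_, ?_⟩
  · rw [Finset.card_image_of_injOn hf, Finset.card_product, hAc, hBc]
  · convert hfL
  · unfold ss at hAs hBs ⊢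
    have hsub : ((((A ×ˢ B).image f : Finset (Fin 3 → ℝ)) : Set (Fin 3 → ℝ)) + (((A ×ˢ B).image f : Finset (Fin 3 → ℝ)) : Set (Fin 3 → ℝ)))
        ⊆ f '' (((A : Set (Fin 3 → ℝ)) + (A : Set (Fin 3 → ℝ))) ×ˢ ((B : Set (Fin 3 → ℝ)) + (B : Set (Fin 3 → ℝ)))) := by
      rintro x ⟨a, ha, b, hb, rfl⟩
      rw [Finset.coe_image] at ha hb
      obtain ⟨p, hp, rfl⟩ := ha
      obtain ⟨q, hq, rfl⟩ := hb
      rw [Finset.mem_coe, Finset.mem_product] at hp hq
      refine ⟨p + q, ?_, by simp⟩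
      exact ⟨⟨p.1, hp.1, q.1, hq.1, rfl⟩, ⟨p.2, hp.2, q.2, hq.2, rfl⟩⟩
    have hfin := (MulP_ss_fin A).prod (MulP_ss_fin B)
    calc _ ≤ (f '' (((A : Set (Fin 3 → ℝ)) + (A : Set (Fin 3 → ℝ))) ×ˢ ((B : Set (Fin 3 → ℝ)) + (B : Set (Fin 3 → ℝ))))).ncard :=
          Set.ncard_le_ncard hsub (hfin.image _)
      _ ≤ _ := Set.ncard_image_le hfin
      _ = _ := Set.ncard_prod
      _ ≤ s * t := Nat.mul_le_mul hAs hBs

theorem P_mono {m n s : ℕ} (h : P n s) (hm : m ≤ n) : P m s := by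
  obtain ⟨A, hAc, hAL, hAs⟩ := h
  obtain ⟨B, hBA, hBc⟩ := Finset.exists_subset_card_eq (s := A) (n := m) (by omega)
  refine ⟨B, hBc, MulP_lp_mono hBA hAL, le_trans ?_ hAs⟩
  exact Set.ncard_le_ncard (Set.add_subset_add (by exact_mod_cast hBA) (by exact_mod_cast hBA)) (MulP_ss_fin A)

theorem P_two : P 2 3 := by
  classical
  refine ⟨{0, fun _ => 1}, ?_, ⟨?_, ?_⟩, ?_⟩
  · rw [Finset.card_pair]
    intro h
    have := congrFun h 0
    simp at this
  · intro T hT hc
    have := Finset.card_le_card hT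
    have := Finset.card_le_two (a := (0 : Fin 3 → ℝ)) (b := fun _ => 1)
    omega
  · intro T hT hc
    have := Finset.card_le_card hT
    have := Finset.card_le_two (a := (0 : Fin 3 → ℝ)) (b := fun _ => 1)
    omega
  · unfold ss
    have : ((({0, fun _ => 1} : Finset (Fin 3 → ℝ)) : Set (Fin 3 → ℝ)) + (({0, fun _ => 1} : Finset (Fin 3 → ℝ)) : Set (Fin 3 → ℝ)))
      ⊆ (({0, (fun _ => 1), (fun _ => 2)} : Finset (Fin 3 → ℝ)) : Set (Fin 3 → ℝ)) := by
      rintro x ⟨a, ha, b, hb, rfl⟩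
      simp only [Finset.coe_insert, Finset.coe_singleton, Set.mem_insert_iff, Set.mem_singleton_iff] at ha hb ⊢
      rcases ha with rfl | rfl <;> rcases hb with rfl | rfl
      · left; simp
      · right; left; simp
      · right; left; simp
      · right; right; funext i; simp; norm_num
    refine le_trans (Set.ncard_le_ncard this (Finset.finite_toSet _)) ?_
    rw [Set.ncard_coe_finset]
    exact Finset.card_le_three

theorem P_ge {n s : ℕ} (h : P n s) : n ≤ s := by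
  classical
  obtain ⟨A, hAc, hAL, hAs⟩ := h
  refine le_trans ?_ hAs
  rcases A.eq_empty_or_nonempty with rfl | ⟨a, ha⟩
  · simp at hAc
    omega
  · rw [← hAc, ← Set.ncard_coe_finset A]
    rw [← Set.ncard_image_of_injective (A : Set (Fin 3 → ℝ)) (add_right_injective a)]
    refine Set.ncard_le_ncard ?_ (MulP_ss_fin A)
    rintro x ⟨b, hb, rfl⟩
    exact ⟨a, ha, b, hb, rfl⟩

theorem P_fin (n : ℕ) : ∃ s, P n s := by
  have h : ∀ k : ℕ, P (2 ^ (k+1)) (3 ^ (k+1)) := by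
    intro k
    induction k with
    | zero => simpa using P_two
    | succ k ih =>
      have := P_mul ih P_two
      rw [pow_succ, pow_succ 3]
      exact this
  refine ⟨3 ^ (n+1), P_mono (h n) ?_⟩
  have := Nat.lt_two_pow_self (n := n + 1)
  omega

end Pool.Agent.LEX
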