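import Pool.Agent.LEX.Col
import Pool.Agent.LEX.MulP
import Pool.Agent.LEX.Ari

set_option autoImplicit false

/-! Module Fin: assembly.  `γ` from `ari` for `Q = P` (`hone`: one point, `ss = 1`).
The GLB statement: for a set `A` with `|A| = n ≥ 2`, `Lp A`: `P n (ss A)`; conversely `P n s` gives `A` with `ss A ≤ s`, so the two sets of numbers have the same lower bounds.
Lower bound: `A` 5-generic, `|A| = n ≥ 1`: `B ⊆ A` from `col`, `|B| ≥ (2n-2)/3 ≥ n/2` for `n ≥ 4`; `|A+A| ≥ |B+B| ≥ |B|^(1+γ)`, so the ratio is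
`≥ (n/2)^(1+γ)/n ≥ n^γ/4` (`γ ≤ 1`, see below); for `n ≤ 3`: the ratio is `≥ 1 ≥ n^γ/4`.  `γ ≤ 1`: `P 2 3` gives `γ ≤ log(3/2)/log 2 ≤ 1`.
Upper bound: a set with `Lp` is 5-generic (`fg_iff`). -/

open Finset Matrix
open scoped Pointwise

namespace Pool.Agent.LEX

private theorem Fin_fin {V : Type} [AddCommGroup V] (A : Finset V) :
    ((A : Set V) + (A : Set V)).Finite := A.finite_toSet.add A.finite_toSet

private theorem Fin_ge {V : Type} [AddCommGroup V] (A : Finset V) (hA : A.Nonempty) :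
    A.card ≤ ss A := by
  obtain ⟨a, ha⟩ := hA
  unfold ss
  have h1 : (fun x => a + x) '' (A : Set V) ⊆ (A : Set V) + (A : Set V) := by
    rintro _ ⟨x, hx, rfl⟩
    exact Set.add_mem_add ha hx
  have h2 := Set.ncard_le_ncard h1 (Fin_fin A)
  rw [Set.ncard_image_of_injective _ (add_right_injective a), Set.ncard_coe_finset] at h2
  exact h2

private theorem Fin_mono {V : Type} [AddCommGroup V] {A B : Finset V} (h : B ⊆ A) :
    ss B ≤ ss A := by
  unfold ss
  apply Set.ncard_le_ncard _ (Fin_fin A)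
  exact Set.add_subset_add (Finset.coe_subset.2 h) (Finset.coe_subset.2 h)

private theorem Fin_one : P 1 1 := by
  refine ⟨{0}, Finset.card_singleton 0, ⟨?_, ?_⟩, ?_⟩
  · intro T hT hc
    have := Finset.card_le_card hT
    rw [Finset.card_singleton] at this
    omega
  · intro T hT hc
    have := Finset.card_le_card hT
    rw [Finset.card_singleton] at this
    omega
  · unfold ss
    rw [Finset.coe_singleton, Set.singleton_add_singleton, Set.ncard_singleton]

theorem fin : ∃ γ : ℝ, 0 ≤ γ ∧ γ ≤ 1 ∧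
    IsGLB {r : ℝ | ∃ A : Finset (Fin 3 → ℝ), 2 ≤ A.card ∧ Lp A ∧ r = Real.log ((ss A : ℝ) / A.card) / Real.log A.card} γ ∧
    (∀ A : Finset (Fin 3 → ℝ), A.Nonempty → FiveGeneric A → (A.card : ℝ) ^ γ / 4 ≤ (ss A : ℝ) / A.card) ∧
    (∀ ε : ℝ, 0 < ε → ∃ C : ℝ, 0 < C ∧ ∀ n : ℕ, 1 ≤ n → ∃ A : Finset (Fin 3 → ℝ), A.card = n ∧ FiveGeneric A ∧
      (ss A : ℝ) / A.card ≤ C * (n : ℝ) ^ (γ + ε)) := by
  obtain ⟨γ, h0, hglb, hlow, hup⟩ := ari P (fun m n s t => P_mul) (fun m n s => P_mono)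
    (fun n s => P_ge) Fin_one ⟨3, P_two⟩
  have hγ1 : γ ≤ 1 := by
    have h1 : γ ≤ Real.log (((3 : ℕ) : ℝ) / (2 : ℕ)) / Real.log ((2 : ℕ) : ℝ) :=
      hglb.1 ⟨2, 3, le_refl 2, P_two, rfl⟩
    refine h1.trans ?_
    have h2 : 0 < Real.log ((2 : ℕ) : ℝ) := Real.log_pos (by norm_num)
    rw [div_le_one h2]
    apply Real.log_le_log (by norm_num)
    norm_num
  refine ⟨γ, h0, hγ1, ?_, ?_, ?_⟩
  · -- the greatest lower bound
    have hlb : lowerBounds {r : ℝ | ∃ A : Finset (Fin 3 → ℝ), 2 ≤ A.card ∧ Lp A ∧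
        r = Real.log ((ss A : ℝ) / A.card) / Real.log A.card} =
        lowerBounds {r : ℝ | ∃ n s : ℕ, 2 ≤ n ∧ P n s ∧
          r = Real.log ((s : ℝ) / n) / Real.log n} := by
      ext x
      constructor
      · rintro hx r ⟨n, s, hn, ⟨A, hA1, hA2, hA3⟩, rfl⟩
        have h1 : x ≤ Real.log ((ss A : ℝ) / A.card) / Real.log A.card :=
          hx ⟨A, by omega, hA2, rfl⟩
        rw [hA1] at h1
        refine h1.trans ?_
        have hn0 : (0 : ℝ) < n := by exact_mod_cast (by omega : 0 < n)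
        have hlog : 0 < Real.log n := Real.log_pos (by exact_mod_cast (by omega : 1 < n))
        apply div_le_div_of_nonneg_right _ hlog.le
        have hne : A.Nonempty := Finset.card_pos.1 (by omega)
        have hss : 0 < ss A := lt_of_lt_of_le (by omega) (Fin_ge A hne)
        apply Real.log_le_log
        · have : (0 : ℝ) < ss A := by exact_mod_cast hss
          positivity
        · apply div_le_div_of_nonneg_right _ hn0.le
          exact_mod_cast hA3
      · rintro hx r ⟨A, hA1, hA2, rfl⟩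
        exact hx ⟨A.card, ss A, hA1, ⟨A, rfl, hA2, le_refl _⟩, rfl⟩
    unfold IsGLB IsGreatest at hglb ⊢
    rw [hlb]
    exact hglb
  · -- the lower bound
    intro A hne hA
    have hn1 : 1 ≤ A.card := Finset.card_pos.2 hne
    have hn0 : (0 : ℝ) < A.card := by exact_mod_cast hn1
    have hnR : (1 : ℝ) ≤ A.card := by exact_mod_cast hn1
    by_cases hn : 4 ≤ A.card
    · obtain ⟨B, hBA, hB, hcard⟩ := col A hA
      have hB1 : 1 ≤ B.card := by omega
      have h1 := hlow B.card (ss B) hB1 ⟨B, rfl, hB, le_refl _⟩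
      have h2 : (ss B : ℝ) ≤ ss A := by exact_mod_cast Fin_mono hBA
      have h3 : (A.card : ℝ) / 2 ≤ B.card := by
        rw [div_le_iff₀ (by norm_num)]
        have : A.card ≤ B.card * 2 := by omega
        exact_mod_cast this
      have h4 : ((A.card : ℝ) / 2) ^ (1 + γ) ≤ ss A :=
        (Real.rpow_le_rpow (by positivity) h3 (by linarith)).trans (h1.trans h2)
      rw [le_div_iff₀ hn0]
      refine le_trans ?_ h4
      rw [Real.div_rpow hn0.le (by norm_num), Real.rpow_add hn0, Real.rpow_one]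
      have h5 : (2 : ℝ) ^ (1 + γ) ≤ 4 := by
        calc (2 : ℝ) ^ (1 + γ) ≤ (2 : ℝ) ^ (2 : ℝ) :=
              Real.rpow_le_rpow_of_exponent_le (by norm_num) (by linarith)
          _ = 4 := by norm_num
      have h6 : 0 < (2 : ℝ) ^ (1 + γ) := by positivity
      have h7 : 0 < (A.card : ℝ) ^ γ := by positivity
      calc (A.card : ℝ) ^ γ / 4 * A.card = (A.card * (A.card : ℝ) ^ γ) / 4 := by ring
        _ ≤ (A.card * (A.card : ℝ) ^ γ) / (2 : ℝ) ^ (1 + γ) := by
            apply div_le_div_of_nonneg_left (by positivity) h6 h5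
    · have h1 : (A.card : ℝ) ≤ ss A := by exact_mod_cast Fin_ge A hne
      have h2 : (A.card : ℝ) ^ γ ≤ (A.card : ℝ) ^ (1 : ℝ) :=
        Real.rpow_le_rpow_of_exponent_le hnR hγ1
      rw [Real.rpow_one] at h2
      have h3 : (A.card : ℝ) ≤ 4 := by
        have : A.card ≤ 4 := by omega
        exact_mod_cast this
      rw [le_div_iff₀ hn0]
      nlinarith
  · -- the upper bound
    intro ε hε
    obtain ⟨C, hC, hCn⟩ := hup ε hε
    refine ⟨C, hC, ?_⟩
    intro n hn
    obtain ⟨s, ⟨A, hA1, hA2, hA3⟩, hs⟩ := hCn n hn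
    have hn0 : (0 : ℝ) < n := by exact_mod_cast hn
    refine ⟨A, hA1, (fg_iff A).2 hA2.2, ?_⟩
    rw [hA1, div_le_iff₀ hn0]
    have h1 : (ss A : ℝ) ≤ s := by exact_mod_cast hA3
    refine h1.trans (hs.trans (le_of_eq ?_))
    rw [mul_assoc]
    congr 1
    have h2 : 1 + γ + ε = (γ + ε) + 1 := by ring
    rw [h2, Real.rpow_add hn0, Real.rpow_one]

end Pool.Agent.LEX
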