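import Pool.Agent.LEX.Defs

set_option autoImplicit false

/-! Module GenP: generic linear maps.  Induction on `F`.  `F = ∅`: `f = 0`.  Let `f` work for `F` and let `u` be a new linearly independent triple.  There is a linear
`g : V → (Fin 3 → ℝ)` with `g (u i) = Pi.single i 1` (extend the independent family to a basis: `LinearIndependent.extend`/`Basis.constr`, or `LinearMap.exists_leftInverse_of_injective`).
For `v` in `insert u F` the function `t ↦ det (f (v i) + t g (v i))` is a polynomial `p_v(t)` of degree `≤ 3`, not zero: for `v ∈ F` since `p_v(0) = det (f (v i)) ≠ 0`; for `v = u` the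
coefficient of `t³` is `det g(u) = 1` (e.g. `p_u(t) = det(M + t·1)` which is `± charpoly(-M)`: monic).  The product of the `p_v` is a nonzero polynomial, so there is a real `t` where all
are nonzero (infinite field: `Polynomial.exists_eval_ne_zero_of_natDegree_lt_card` or finiteness of roots).  `f + t g` works (`det ≠ 0` iff rows independent:
`Matrix.linearIndependent_rows_iff_isUnit`, `Matrix.isUnit_iff_isUnit_det`). -/

open Finset Matrix

namespace Pool.Agent.LEX

private theorem GenP_iff (w : Fin 3 → (Fin 3 → ℝ)) :
    LinearIndependent ℝ w ↔ (Matrix.of w).det ≠ 0 := by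
  have h1 := Matrix.linearIndependent_rows_iff_isUnit (A := Matrix.of w)
  rw [Matrix.isUnit_iff_isUnit_det, isUnit_iff_ne_zero] at h1
  exact h1

private theorem GenP_dual {V : Type} [AddCommGroup V] [Module ℝ V] (u : Fin 3 → V)
    (hu : LinearIndependent ℝ u) :
    ∃ g : V →ₗ[ℝ] (Fin 3 → ℝ), ∀ i, g (u i) = Pi.single i 1 := by
  have hinj : LinearMap.ker (Fintype.linearCombination ℝ u) = ⊥ := by
    rw [LinearMap.ker_eq_bot']
    intro m hm
    rw [Fintype.linearCombination_apply] at hm
    funext i
    exact Fintype.linearIndependent_iff.1 hu m hm i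
  obtain ⟨g, hg⟩ := LinearMap.exists_leftInverse_of_injective _ hinj
  refine ⟨g, fun i => ?_⟩
  have h1 := LinearMap.congr_fun hg (Pi.single i 1)
  rw [LinearMap.comp_apply, Fintype.linearCombination_apply_single, one_smul] at h1
  exact h1

/-- the matrix of polynomials -/
private noncomputable def GenP_M {V : Type} [AddCommGroup V] [Module ℝ V]
    (f g : V →ₗ[ℝ] (Fin 3 → ℝ)) (v : Fin 3 → V) : Matrix (Fin 3) (Fin 3) (Polynomial ℝ) :=
  Matrix.of fun i j => Polynomial.C (f (v i) j) + Polynomial.X * Polynomial.C (g (v i) j)

private theorem GenP_eval {V : Type} [AddCommGroup V] [Module ℝ V]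
    (f g : V →ₗ[ℝ] (Fin 3 → ℝ)) (v : Fin 3 → V) (t : ℝ) :
    (GenP_M f g v).det.eval t = (Matrix.of fun i => (f + t • g) (v i)).det := by
  have h1 := (Polynomial.evalRingHom t).map_det (GenP_M f g v)
  rw [Polynomial.coe_evalRingHom] at h1
  rw [h1]
  congr 1
  ext i j
  simp only [GenP_M, RingHom.mapMatrix_apply, Matrix.map_apply, Matrix.of_apply,
    Polynomial.coe_evalRingHom, Polynomial.eval_add, Polynomial.eval_mul, Polynomial.eval_C,
    Polynomial.eval_X, LinearMap.add_apply, LinearMap.smul_apply, Pi.add_apply, Pi.smul_apply,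
    smul_eq_mul]

theorem genP {V : Type} [AddCommGroup V] [Module ℝ V] (F : Finset (Fin 3 → V)) (hF : ∀ u ∈ F, LinearIndependent ℝ u) :
    ∃ f : V →ₗ[ℝ] (Fin 3 → ℝ), ∀ u ∈ F, LinearIndependent ℝ (fun i => f (u i)) := by
  classical
  induction F using Finset.induction_on with
  | empty => exact ⟨0, fun u hu => absurd hu (Finset.notMem_empty u)⟩
  | insert u F _ ih =>
    obtain ⟨f, hf⟩ := ih (fun v hv => hF v (Finset.mem_insert_of_mem hv))
    obtain ⟨g, hg⟩ := GenP_dual u (hF u (Finset.mem_insert_self u F))
    have hne : ∀ v ∈ insert u F, (GenP_M f g v).det ≠ 0 := by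
      intro v hv h0
      rw [Finset.mem_insert] at hv
      rcases hv with rfl | hv
      · have h1 : GenP_M f g v = charmatrix (-(Matrix.of fun i => f (v i))) := by
          ext i j : 2
          unfold GenP_M
          rw [Matrix.of_apply, hg i]
          by_cases hij : i = j
          · subst hij
            rw [charmatrix_apply_eq, Pi.single_eq_same, map_one, mul_one, Matrix.neg_apply,
              map_neg, sub_neg_eq_add, add_comm]
            rfl
          · rw [charmatrix_apply_ne _ _ _ hij, Pi.single_eq_of_ne (Ne.symm hij), map_zero, mul_zero,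
              add_zero, Matrix.neg_apply, map_neg, neg_neg]
            rfl
        have h2 : (-(Matrix.of fun i => f (v i))).charpoly = 0 := by
          unfold Matrix.charpoly
          rw [← h1, h0]
        exact (Matrix.charpoly_monic _).ne_zero h2
      · have h1 := hf v hv
        rw [GenP_iff] at h1
        apply h1
        have h2 := GenP_eval f g v 0
        rw [h0, Polynomial.eval_zero, zero_smul, add_zero] at h2
        exact h2.symm
    have hprod : ∏ v ∈ insert u F, (GenP_M f g v).det ≠ 0 := Finset.prod_ne_zero_iff.2 hne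
    obtain ⟨t, ht⟩ := Polynomial.exists_eval_ne_zero_of_natDegree_lt_card
      (∏ v ∈ insert u F, (GenP_M f g v).det) hprod (by
        exact lt_of_lt_of_le Cardinal.natCast_lt_aleph0 (Cardinal.aleph0_le_mk ℝ))
    rw [Polynomial.eval_prod, Finset.prod_ne_zero_iff] at ht
    refine ⟨f + t • g, fun v hv => ?_⟩
    rw [GenP_iff, ← GenP_eval]
    exact ht v hv

end Pool.Agent.LEX
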