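import Pool.Agent.LEX.Fin

set_option autoImplicit false

/-! Module Lim.  `g n = sInf (ratios n)`.  From `fin`: `n^γ/4 ≤ g n ≤ C n^(γ+ε)` for `n ≥ 1`, so `log(g n)/log n → γ`
(`log(g n) ≥ γ log n - log 4`, `log (g n) ≤ log C + (γ+ε) log n`, divide by `log n → ∞`). -/

open Finset Matrix Filter
open scoped Pointwise

namespace Pool.Agent.LEX

/-- the set of the values `|A + A| / |A|` -/
def ratios (n : ℕ) : Set ℝ :=
  {r | ∃ A : Finset (Fin 3 → ℝ), A.card = n ∧ FiveGeneric A ∧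
    r = (((A : Set (Fin 3 → ℝ)) + (A : Set (Fin 3 → ℝ))).ncard : ℝ) / (A.card : ℝ)}

/-- the function `g` of the problem -/
noncomputable def g (n : ℕ) : ℝ := sInf (ratios n)

theorem lim : ∃ γ : ℝ, 0 ≤ γ ∧ γ ≤ 1 ∧
    Tendsto (fun n : ℕ => Real.log (g n) / Real.log n) atTop (nhds γ) ∧ (∀ n : ℕ, 1 ≤ n → (n : ℝ) ^ γ / 4 ≤ g n) ∧
    IsGLB {r : ℝ | ∃ A : Finset (Fin 3 → ℝ), 2 ≤ A.card ∧ Lp A ∧
      r = Real.log ((((A : Set (Fin 3 → ℝ)) + (A : Set (Fin 3 → ℝ))).ncard : ℝ) / A.card) / Real.log A.card} γ := by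
  obtain ⟨γ, h0, h1, hglb, hlow, hup⟩ := fin
  have hlb : ∀ n : ℕ, 1 ≤ n → ∀ r ∈ ratios n, (n : ℝ) ^ γ / 4 ≤ r := by
    rintro n hn r ⟨A, hA1, hA2, rfl⟩
    have hne : A.Nonempty := Finset.card_pos.1 (by omega)
    have h2 := hlow A hne hA2
    rw [hA1] at h2 ⊢
    exact h2
  have hex : ∀ ε : ℝ, 0 < ε → ∃ C : ℝ, 0 < C ∧ ∀ n : ℕ, 1 ≤ n →
      ∃ r ∈ ratios n, r ≤ C * (n : ℝ) ^ (γ + ε) := by
    intro ε hε
    obtain ⟨C, hC, hCn⟩ := hup ε hε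
    refine ⟨C, hC, fun n hn => ?_⟩
    obtain ⟨A, hA1, hA2, hA3⟩ := hCn n hn
    exact ⟨_, ⟨A, hA1, hA2, rfl⟩, hA3⟩
  have hne : ∀ n : ℕ, 1 ≤ n → (ratios n).Nonempty := by
    intro n hn
    obtain ⟨C, _, hCn⟩ := hex 1 one_pos
    obtain ⟨r, hr, _⟩ := hCn n hn
    exact ⟨r, hr⟩
  have hbb : ∀ n : ℕ, 1 ≤ n → BddBelow (ratios n) := fun n hn =>
    ⟨(n : ℝ) ^ γ / 4, fun r hr => hlb n hn r hr⟩
  have hglow : ∀ n : ℕ, 1 ≤ n → (n : ℝ) ^ γ / 4 ≤ g n := fun n hn =>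
    le_csInf (hne n hn) (fun r hr => hlb n hn r hr)
  refine ⟨γ, h0, h1, ?_, hglow, hglb⟩
  rw [Metric.tendsto_atTop]
  intro ε hε
  obtain ⟨C, hC, hCn⟩ := hex (ε / 2) (by positivity)
  have hlogt : Tendsto (fun n : ℕ => Real.log (n : ℝ)) atTop atTop :=
    Real.tendsto_log_atTop.comp tendsto_natCast_atTop_atTop
  obtain ⟨N, hN⟩ := (((hlogt.eventually_gt_atTop (max (Real.log 4 / ε)
    (2 * |Real.log C| / ε))).and (hlogt.eventually_gt_atTop 0)).and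
      (Filter.eventually_ge_atTop 1)).exists_forall_of_atTop
  refine ⟨N, fun n hn => ?_⟩
  obtain ⟨⟨a1, a2⟩, a3⟩ := hN n hn
  have hn0 : (0 : ℝ) < n := by exact_mod_cast a3
  have b1 : Real.log 4 / ε < Real.log n := lt_of_le_of_lt (le_max_left _ _) a1
  have b2 : 2 * |Real.log C| / ε < Real.log n := lt_of_le_of_lt (le_max_right _ _) a1
  rw [div_lt_iff₀ hε] at b1 b2
  have hg0 : 0 < g n := lt_of_lt_of_le (by positivity) (hglow n a3)
  have hgu : g n ≤ C * (n : ℝ) ^ (γ + ε / 2) := by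
    obtain ⟨r, hr, hrC⟩ := hCn n a3
    exact (csInf_le (hbb n a3) hr).trans hrC
  have l1 : γ * Real.log n - Real.log 4 ≤ Real.log (g n) := by
    have h2 := Real.log_le_log (by positivity) (hglow n a3)
    rw [Real.log_div (by positivity) (by norm_num), Real.log_rpow hn0] at h2
    exact h2
  have l2 : Real.log (g n) ≤ Real.log C + (γ + ε / 2) * Real.log n := by
    have h2 := Real.log_le_log hg0 hgu
    rw [Real.log_mul hC.ne' (by positivity), Real.log_rpow hn0] at h2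
    exact h2
  rw [Real.dist_eq, abs_lt]
  have hlC := le_abs_self (Real.log C)
  constructor
  · rw [neg_lt_sub_iff_lt_add, ← sub_lt_iff_lt_add', lt_div_iff₀ a2]
    nlinarith
  · rw [sub_lt_iff_lt_add, div_lt_iff₀ a2]
    nlinarith

end Pool.Agent.LEX
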