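import Pool.Agent.LEX.Defs

set_option autoImplicit false

/-! Module ProdL: products.  Let `T ⊆ A ×ˢ B`, `U = vectorSpan ℝ T ≤ V × W`.
(a) If `Prod.fst` is injective on `U` then `fst` is injective on `T` (`x - y ∈ U`), and `vectorSpan (fst '' T) = map fst U` (`AffineMap.vectorSpan_image_eq_submodule_map` or
`vectorSpan_image..`), so `fst '' T ⊆ A` has `|T|` elements and is collinear/coplanar if `T` is.  Same for `snd`.
(b) `|T| = 3`, `T` collinear: `dim U ≤ 1`; `ker fst ∩ ker snd = 0`, so one of the two projections is injective on `U` (a one dimensional space: a linear map is zero or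
injective), contradiction to `Lp A` or `Lp B`.
(c) `|T| = 5`, `T` coplanar: `dim U ≤ 2`.  If neither projection is injective on `U` there are `0 ≠ (0,w) ∈ U`, `0 ≠ (v,0) ∈ U`, which are independent, so `U` = their span and all first
coordinates of `T` lie on a line with direction `v`, so take at most two values (`Lp A`), and similarly the second coordinates; `|T| ≤ 4`, contradiction. -/

open Finset

namespace Pool.Agent.LEX

private theorem ProdL_img {E F : Type} [AddCommGroup E] [Module ℝ E] [AddCommGroup F] [Module ℝ F]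
    (π : E →ₗ[ℝ] F) (T : Finset E) (C : Finset F) (hC : Lp C) (hT : ∀ t ∈ T, π t ∈ C)
    (hinj : ∀ u ∈ vectorSpan ℝ (T : Set E), π u = 0 → u = 0) :
    (T.card = 3 → ¬ Collinear ℝ (T : Set E)) ∧ (T.card = 5 → ¬ Coplanar ℝ (T : Set E)) := by
  classical
  have hcard : (T.image π).card = T.card := by
    apply card_image_of_injOn
    intro x hx y hy hxy
    have h1 : x - y ∈ vectorSpan ℝ (T : Set E) := vsub_mem_vectorSpan ℝ hx hy
    have h2 := hinj _ h1 (by rw [map_sub]; exact sub_eq_zero.2 hxy)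
    exact sub_eq_zero.1 h2
  have hsub : T.image π ⊆ C := by
    intro y hy
    rw [mem_image] at hy
    obtain ⟨t, ht, rfl⟩ := hy
    exact hT t ht
  have hspan : Submodule.map π (vectorSpan ℝ (T : Set E)) =
      vectorSpan ℝ ((T.image π : Finset F) : Set F) := by
    rw [coe_image]
    exact AffineMap.vectorSpan_image_eq_submodule_map π.toAffineMap
  have hrank : Module.rank ℝ (vectorSpan ℝ ((T.image π : Finset F) : Set F)) ≤
      Module.rank ℝ (vectorSpan ℝ (T : Set E)) := by
    rw [← hspan]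
    exact rank_map_le _ _
  constructor
  · intro h3 hcol
    exact hC.1 _ hsub (by rw [hcard, h3]) (hrank.trans hcol)
  · intro h5 hcop
    exact hC.2 _ hsub (by rw [hcard, h5]) (hrank.trans hcop)

private theorem ProdL_two {E F : Type} [AddCommGroup E] [Module ℝ E] [AddCommGroup F] [Module ℝ F]
    [DecidableEq F] (π : E →ₗ[ℝ] F) (T : Finset E) (C : Finset F) (hC : Lp C)
    (hT : ∀ t ∈ T, π t ∈ C) (v : F)
    (h : ∀ u ∈ vectorSpan ℝ (T : Set E), ∃ r : ℝ, π u = r • v) : (T.image π).card ≤ 2 := by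
  by_contra hcon
  obtain ⟨T3, hT3, hc3⟩ := exists_subset_card_eq (show 3 ≤ (T.image π).card by omega)
  have hsub : T3 ⊆ C := by
    intro y hy
    have := hT3 hy
    rw [mem_image] at this
    obtain ⟨t, ht, rfl⟩ := this
    exact hT t ht
  apply hC.1 T3 hsub hc3
  obtain ⟨p0, hp0⟩ : T3.Nonempty := by
    rw [← card_pos]
    omega
  rw [collinear_iff_of_mem (p₀ := p0) (by exact_mod_cast hp0)]
  refine ⟨v, fun p hp => ?_⟩
  have hp' := hT3 hp
  have hp0' := hT3 hp0
  rw [mem_image] at hp' hp0'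
  obtain ⟨t, ht, rfl⟩ := hp'
  obtain ⟨t0, ht0, rfl⟩ := hp0'
  obtain ⟨r, hr⟩ := h (t - t0) (vsub_mem_vectorSpan ℝ ht ht0)
  refine ⟨r, ?_⟩
  rw [map_sub] at hr
  rw [vadd_eq_add, ← hr, sub_add_cancel]

private theorem ProdL_dim {E F : Type} [AddCommGroup E] [Module ℝ E] [AddCommGroup F] [Module ℝ F]
    (π : E →ₗ[ℝ] F) (U : Submodule ℝ E) (hU : Module.rank ℝ U ≤ 2) {u u' : E} (hu : u ∈ U)
    (hu' : u' ∈ U) (hu0 : u ≠ 0) (hπ : π u = 0) (hπ' : π u' ≠ 0) :
    ∀ z ∈ U, ∃ r : ℝ, π z = r • π u' := by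
  intro z hz
  by_contra hcon
  push Not at hcon
  have hli : LinearIndependent ℝ (fun i : Fin 3 => (![⟨u', hu'⟩, ⟨z, hz⟩, ⟨u, hu⟩] i : U)) := by
    rw [Fintype.linearIndependent_iff]
    intro g hg
    rw [Fin.sum_univ_three] at hg
    have h1 : g 0 • u' + g 1 • z + g 2 • u = 0 := by
      have := congrArg (Subtype.val) hg
      simpa using this
    have h2 : g 0 • π u' + g 1 • π z = 0 := by
      have := congrArg π h1
      rw [map_add, map_add, map_smul, map_smul, map_smul, hπ, smul_zero, add_zero, map_zero] at this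
      exact this
    have h3 : g 1 = 0 := by
      by_contra h3
      apply hcon (-(g 0) / g 1)
      have h4 : g 1 • π z = -(g 0) • π u' := by
        rw [neg_smul]
        exact eq_neg_of_add_eq_zero_right h2
      rw [div_eq_inv_mul, mul_smul, ← h4, smul_smul, inv_mul_cancel₀ h3, one_smul]
    rw [h3, zero_smul, add_zero] at h2
    have h4 : g 0 = 0 := (smul_eq_zero.1 h2).resolve_right hπ'
    rw [h3, h4, zero_smul, zero_smul, zero_add, zero_add] at h1
    have h5 : g 2 = 0 := (smul_eq_zero.1 h1).resolve_right hu0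
    intro i
    fin_cases i
    · exact h4
    · exact h3
    · exact h5
  have h6 := hli.cardinal_le_rank
  have h7 : (Cardinal.mk (Fin 3)) ≤ 2 := h6.trans hU
  rw [Cardinal.mk_fin] at h7
  have h8 : (3 : ℕ) ≤ 2 := by exact_mod_cast h7
  omega

theorem prodL {V W : Type} [AddCommGroup V] [Module ℝ V] [AddCommGroup W] [Module ℝ W] (A : Finset V) (B : Finset W)
    (hA : Lp A) (hB : Lp B) : Lp (A ×ˢ B) := by
  classical
  have hfst : ∀ T : Finset (V × W), T ⊆ A ×ˢ B → ∀ t ∈ T, LinearMap.fst ℝ V W t ∈ A :=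
    fun T hT t ht => (mem_product.1 (hT ht)).1
  have hsnd : ∀ T : Finset (V × W), T ⊆ A ×ˢ B → ∀ t ∈ T, LinearMap.snd ℝ V W t ∈ B :=
    fun T hT t ht => (mem_product.1 (hT ht)).2
  constructor
  · intro T hT h3 hcol
    by_cases h1 : ∀ u ∈ vectorSpan ℝ (T : Set (V × W)), LinearMap.fst ℝ V W u = 0 → u = 0
    · exact (ProdL_img _ T A hA (hfst T hT) h1).1 h3 hcol
    by_cases h2 : ∀ u ∈ vectorSpan ℝ (T : Set (V × W)), LinearMap.snd ℝ V W u = 0 → u = 0
    · exact (ProdL_img _ T B hB (hsnd T hT) h2).1 h3 hcol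
    push Not at h1 h2
    obtain ⟨u, hu, hu1, hu0⟩ := h1
    obtain ⟨u', hu', hu2, hu0'⟩ := h2
    obtain ⟨v0, hv0, hle⟩ := (rank_submodule_le_one_iff _).1 hcol
    obtain ⟨r, hr⟩ := Submodule.mem_span_singleton.1 (hle hu)
    obtain ⟨r', hr'⟩ := Submodule.mem_span_singleton.1 (hle hu')
    have hr0 : r ≠ 0 := by
      rintro rfl
      exact hu0 (by rw [← hr, zero_smul])
    have hr0' : r' ≠ 0 := by
      rintro rfl
      exact hu0' (by rw [← hr', zero_smul])
    have h5 : v0.1 = 0 := by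
      rw [← hr] at hu1
      have : r • v0.1 = 0 := hu1
      exact (smul_eq_zero.1 this).resolve_left hr0
    have h6 : v0.2 = 0 := by
      rw [← hr'] at hu2
      have : r' • v0.2 = 0 := hu2
      exact (smul_eq_zero.1 this).resolve_left hr0'
    apply hu0
    rw [← hr, show v0 = 0 from Prod.ext h5 h6, smul_zero]
  · intro T hT h5 hcop
    by_cases h1 : ∀ u ∈ vectorSpan ℝ (T : Set (V × W)), LinearMap.fst ℝ V W u = 0 → u = 0
    · exact (ProdL_img _ T A hA (hfst T hT) h1).2 h5 hcop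
    by_cases h2 : ∀ u ∈ vectorSpan ℝ (T : Set (V × W)), LinearMap.snd ℝ V W u = 0 → u = 0
    · exact (ProdL_img _ T B hB (hsnd T hT) h2).2 h5 hcop
    push Not at h1 h2
    obtain ⟨u, hu, hu1, hu0⟩ := h1
    obtain ⟨u', hu', hu2, hu0'⟩ := h2
    have hu1' : LinearMap.fst ℝ V W u' ≠ 0 := fun h => hu0' (Prod.ext h hu2)
    have hu2' : LinearMap.snd ℝ V W u ≠ 0 := fun h => hu0 (Prod.ext hu1 h)
    have c1 := ProdL_two (LinearMap.fst ℝ V W) T A hA (hfst T hT) _
      (ProdL_dim (LinearMap.fst ℝ V W) _ hcop hu hu' hu0 hu1 hu1')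
    have c2 := ProdL_two (LinearMap.snd ℝ V W) T B hB (hsnd T hT) _
      (ProdL_dim (LinearMap.snd ℝ V W) _ hcop hu' hu hu0' hu2 hu2')
    have hsub : T ⊆ (T.image (LinearMap.fst ℝ V W)) ×ˢ (T.image (LinearMap.snd ℝ V W)) := by
      intro t ht
      rw [mem_product]
      exact ⟨mem_image_of_mem _ ht, mem_image_of_mem _ ht⟩
    have c3 := card_le_card hsub
    rw [card_product, h5] at c3
    have c4 : (T.image (LinearMap.fst ℝ V W)).card * (T.image (LinearMap.snd ℝ V W)).card ≤ 2 * 2 :=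
      Nat.mul_le_mul c1 c2
    omega

end Pool.Agent.LEX
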